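import Pool.Agent.Q54.HD.Page
import Pool.Agent.Q54.HD.Main

/-!
# The local Hodge-de Rham homology spectral sequence does not always degenerate at `E_2`

Let `k` be a field of characteristic zero, `R = k[[y_0, y_1, y_2, x_0, x_1, x_2, z]]` (the seven
variables are `X 0, ..., X 6` in this order), `f = x_0 y_0 + x_1 y_1 + x_2 y_2` and
`I = (f, z x_0, z x_1, z x_2)`. Then `A = R ⧸ I` is a complete local ring with coefficient field `k`
and the differential `d_2 : E_2^{4,3} → E_2^{6,2}` of the local Hodge-de Rham homology spectral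
sequence of `R → A` is not zero.

The spectral sequence is that of the Cech-de Rham double complex `C^q(g; Ω^p)` of the generators
`g = geqs k` of `I`, filtered by the degree `p` of forms, see `Pool.Agent.Q54.HD.Defs` and
`Pool.Agent.Q54.HD.Page`. The index `(r, p, m)` stands for the differential `d_r` on `E_r^{p, m - p}`.
The field `K` is the field of fractions of `R`; the rings `R[1/g_S]` of the Cech complex are
subrings of `K`.
-/

set_option autoImplicit false

open Q54.HD

namespace Pool.Agent.Results.MP_196708_ag.NotDegenerate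

theorem result (k : Type) [Field k] [CharZero k] (K : Type) [Field K]
    [Algebra (MvPowerSeries (Fin 7) k) K] [IsFractionRing (MvPowerSeries (Fin 7) k) K] :
    (∀ i, geqs k i ≠ 0 ∧ MvPowerSeries.constantCoeff (geqs k i) = 0) ∧
      ¬DifferentialIsZero K (geqs k) 2 4 7 ∧ ¬DegeneratesAtE2 K (geqs k) := by
  have hd : ¬DifferentialIsZero K (geqs k) 2 4 7 := fun h =>
    tot_alpha_not_mem_B ((inB_iff _ _ _ _ _).1 (h (alpha k K) ((inZ_iff _ _ _ _ _).2 alpha_mem_Z)))
  refine ⟨?_, hd, fun h => hd (h 2 4 7 le_rfl)⟩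
  have hx := X_ne_zero' (k := k)
  intro i
  fin_cases i
  · refine ⟨qf_ne_zero, ?_⟩
    change MvPowerSeries.constantCoeff (qf k) = 0
    rw [qf]
    simp
  · refine ⟨mul_ne_zero (hx 6) (hx 3), ?_⟩
    change MvPowerSeries.constantCoeff (MvPowerSeries.X 6 * MvPowerSeries.X 3) = (0 : k)
    simp
  · refine ⟨mul_ne_zero (hx 6) (hx 4), ?_⟩
    change MvPowerSeries.constantCoeff (MvPowerSeries.X 6 * MvPowerSeries.X 4) = (0 : k)
    simp
  · refine ⟨mul_ne_zero (hx 6) (hx 5), ?_⟩
    change MvPowerSeries.constantCoeff (MvPowerSeries.X 6 * MvPowerSeries.X 5) = (0 : k)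
    simp

end Pool.Agent.Results.MP_196708_ag.NotDegenerate
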